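import Mathlib
import Pool.Agent.Hartshorne.Flags

/-!
Noether normalization of a homogeneous ideal by linear forms.
-/

namespace Pool.Agent.Hartshorne

open MvPolynomial

set_option linter.unusedSectionVars false

section Noether

variable {ρ : Type*} [Fintype ρ] [DecidableEq ρ]

/-- A linear space of complementary dimension missing a cone. -/
theorem exists_miss (I : Ideal (MvPolynomial ρ ℂ)) (hhom : HI I) {n : ℕ}
    (hdim : ringKrullDim (MvPolynomial ρ ℂ ⧸ I) ≤ ((n : ℕ) : WithBot ℕ∞)) (q : ℕ)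
    (hq : n + q ≤ Fintype.card ρ) :
    ∃ e : Fin q → (ρ → ℂ), LinearIndependent ℂ e ∧
      ∀ z : Fin q → ℂ, (∀ h ∈ I, eval (comb e z) h = 0) → z = 0 := by
  induction q with
  | zero =>
    exact ⟨fun i => i.elim0, linearIndependent_empty_type, fun z _ => Subsingleton.elim _ _⟩
  | succ q ih =>
    obtain ⟨e, hli, hcon⟩ := ih (by omega)
    obtain ⟨r, hr⟩ : ∃ r, r + 1 + q = Fintype.card ρ := ⟨Fintype.card ρ - q - 1, by omega⟩
    obtain ⟨w, hw, hw'⟩ := extend_flag I hhom e hli hr hcon (by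
      intro hle
      have h1 : ((r + 1 : ℕ) : WithBot ℕ∞) ≤ ((n : ℕ) : WithBot ℕ∞) := hle.trans hdim
      have h2 : r + 1 ≤ n := by exact_mod_cast h1
      omega)
    exact ⟨_, hw, hw'⟩

/-- Linear forms without common zero on a cone. -/
theorem exists_lamD (I : Ideal (MvPolynomial ρ ℂ)) (hhom : HI I) {n : ℕ}
    (hdim : ringKrullDim (MvPolynomial ρ ℂ ⧸ I) ≤ ((n : ℕ) : WithBot ℕ∞))
    (hn : n ≤ Fintype.card ρ) :
    ∃ lam : (ρ → ℂ) →ₗ[ℂ] (Fin n → ℂ),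
      ∀ p : ρ → ℂ, lam p = 0 → (∀ h ∈ I, eval p h = 0) → p = 0 := by
  obtain ⟨q, hq⟩ : ∃ q, n + q = Fintype.card ρ := ⟨Fintype.card ρ - n, by omega⟩
  obtain ⟨e, hli, hcon⟩ := exists_miss I hhom hdim q hq.le
  set U : Submodule ℂ (ρ → ℂ) := Submodule.span ℂ (Set.range e) with hU
  have hfU : Module.finrank ℂ ((ρ → ℂ) ⧸ U) = n := by
    have h1 := Submodule.finrank_quotient_add_finrank U
    have h2 : Module.finrank ℂ U = q := by
      rw [hU, finrank_span_eq_card hli, Fintype.card_fin]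
    rw [Module.finrank_fintype_fun_eq_card, h2] at h1
    omega
  set lam : (ρ → ℂ) →ₗ[ℂ] (Fin n → ℂ) :=
    ((Module.finBasisOfFinrankEq ℂ ((ρ → ℂ) ⧸ U) hfU).equivFun :
      ((ρ → ℂ) ⧸ U) →ₗ[ℂ] (Fin n → ℂ)) ∘ₗ U.mkQ with hlam
  refine ⟨lam, fun p hp hpI => ?_⟩
  have h0 : p ∈ U := by
    have h1 : (Module.finBasisOfFinrankEq ℂ ((ρ → ℂ) ⧸ U) hfU).equivFun (U.mkQ p) = 0 := hp
    rw [LinearEquiv.map_eq_zero_iff] at h1
    rwa [Submodule.mkQ_apply, Submodule.Quotient.mk_eq_zero] at h1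
  obtain ⟨z, hz⟩ := (Submodule.mem_span_range_iff_exists_fun _).mp h0
  have h1 : comb e z = p := by rw [comb_apply]; exact hz
  rw [← h1] at hpI ⊢
  rw [hcon z hpI, map_zero]

/-- The algebra map given by the linear forms. -/
noncomputable def noe {n : ℕ} (I : Ideal (MvPolynomial ρ ℂ)) (lam : (ρ → ℂ) →ₗ[ℂ] (Fin n → ℂ)) :
    MvPolynomial (Fin n) ℂ →ₐ[ℂ] MvPolynomial ρ ℂ ⧸ I :=
  (Ideal.Quotient.mkₐ ℂ I).comp (lsub lam)

lemma noe_apply {n : ℕ} (I : Ideal (MvPolynomial ρ ℂ)) (lam : (ρ → ℂ) →ₗ[ℂ] (Fin n → ℂ))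
    (f : MvPolynomial (Fin n) ℂ) : noe I lam f = Ideal.Quotient.mk I (lsub lam f) := rfl

theorem noe_integral (I : Ideal (MvPolynomial ρ ℂ)) (hhom : HI I) {n : ℕ}
    (lam : (ρ → ℂ) →ₗ[ℂ] (Fin n → ℂ))
    (hcon : ∀ p : ρ → ℂ, lam p = 0 → (∀ h ∈ I, eval p h = 0) → p = 0) :
    (noe I lam).toRingHom.IsIntegral := by
  set g : Fin n → MvPolynomial ρ ℂ := fun i => lsub lam (X i) with hgdef
  have hint := integral_of_no_zero g (fun _ => 1)
    (fun i => isHomogeneous_lsub lam 1 _ (isHomogeneous_X _ i)) (fun _ => one_pos) I hhom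
    (fun p hp hpI => hcon p (by
      funext i
      have h1 := hp i
      rw [hgdef] at h1
      simp only [eval_lsub, eval_X] at h1
      exact h1) hpI)
  have hag : (aeval g : MvPolynomial (Fin n) ℂ →ₐ[ℂ] MvPolynomial ρ ℂ) = lsub lam := by
    apply MvPolynomial.algHom_ext
    intro i
    rw [aeval_X]
  rw [hag] at hint
  exact hint

theorem noe_injective (I : Ideal (MvPolynomial ρ ℂ)) (hhom : HI I) {n : ℕ}
    (lam : (ρ → ℂ) →ₗ[ℂ] (Fin n → ℂ))
    (hcon : ∀ p : ρ → ℂ, lam p = 0 → (∀ h ∈ I, eval p h = 0) → p = 0)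
    (hdim : ((n : ℕ) : WithBot ℕ∞) ≤ ringKrullDim (MvPolynomial ρ ℂ ⧸ I)) :
    Function.Injective (noe I lam) := by
  refine injective_of_isIntegral (noe I lam) (fun x => ?_) (by
    rw [Nat.card_eq_fintype_card, Fintype.card_fin]; exact hdim)
  obtain ⟨p, hp, hpx⟩ := noe_integral I hhom lam hcon x
  refine ⟨p.map (noe I lam).rangeRestrict.toRingHom, hp.map _, ?_⟩
  rw [Polynomial.eval₂_map]
  exact hpx

end Noether

end Pool.Agent.Hartshorne
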