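import Mathlib

/-!
Primitive elements which are linear combinations, with complex coefficients, of given generators.
-/

namespace Pool.Agent.Hartshorne

set_option linter.unusedSectionVars false

section Prim

theorem exists_prim_field {K L : Type*} [Field K] [Field L] [Algebra K L] [Algebra ℂ K]
    [Algebra ℂ L] [IsScalarTower ℂ K L] {ρ : Type*} [Fintype ρ] (x : ρ → L)
    (hx : Algebra.adjoin K (Set.range x) = ⊤) (hint : ∀ b, IsIntegral K (x b)) :
    FiniteDimensional K L ∧ ∃ a : ρ → ℂ, Algebra.adjoin K {∑ b, a b • x b} = ⊤ := by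
  classical
  have hchar : CharZero K := charZero_of_injective_algebraMap (algebraMap ℂ K).injective
  have hfd : FiniteDimensional K L := by
    have h1 := fg_adjoin_of_finite (Set.finite_range x) (by
      rintro _ ⟨b, rfl⟩
      exact hint b)
    rw [hx] at h1
    exact Module.finite_def.mpr (by simpa using h1)
  refine ⟨hfd, ?_⟩
  set E := AlgebraicClosure K with hE
  let W : (L →ₐ[K] E) × (L →ₐ[K] E) → Submodule ℂ (ρ → ℂ) := fun q =>
    LinearMap.ker (Fintype.linearCombination ℂ (fun b => q.1 (x b) - q.2 (x b)))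
  set T : Finset (Submodule ℂ (ρ → ℂ)) :=
    (Finset.univ.filter (fun q : (L →ₐ[K] E) × (L →ₐ[K] E) => q.1 ≠ q.2)).image W with hT
  have htop : ⊤ ∉ T := by
    intro h
    rw [hT, Finset.mem_image] at h
    obtain ⟨q, hq, hW⟩ := h
    rw [Finset.mem_filter] at hq
    apply hq.2
    refine AlgHom.ext_of_adjoin_eq_top hx ?_
    rintro _ ⟨b, rfl⟩
    have h1 : (Pi.single b 1 : ρ → ℂ) ∈ W q := by rw [hW]; exact Submodule.mem_top
    rw [LinearMap.mem_ker, Fintype.linearCombination_apply_single, one_smul] at h1
    exact sub_eq_zero.mp h1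
  obtain ⟨a, ha⟩ : ∃ a : ρ → ℂ, a ∉ ⋃ p ∈ T, (p : Set (ρ → ℂ)) := by
    by_contra hcon
    push Not at hcon
    exact Subspace.biUnion_ne_univ_of_top_notMem htop (Set.eq_univ_of_forall hcon)
  refine ⟨a, ?_⟩
  have hsplit : ∀ y : L, (Polynomial.map (algebraMap K E) (minpoly K y)).Splits :=
    fun y => IsAlgClosed.splits _
  have hz : ∀ σ : L →ₐ[K] E, σ (∑ b, a b • x b) = ∑ b, a b • σ (x b) := by
    intro σ
    rw [map_sum]
    refine Finset.sum_congr rfl (fun b _ => ?_)
    have h1 : a b • x b = (algebraMap ℂ K (a b)) • x b := (algebraMap_smul K (a b) (x b)).symm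
    rw [h1, map_smul, algebraMap_smul]
  have hprim := (Field.primitive_element_iff_algHom_eq_of_eval' K E hsplit
    (∑ b, a b • x b)).mpr (by
      intro σ τ hστ
      by_contra hne
      apply ha
      simp only [Set.mem_iUnion]
      refine ⟨W (σ, τ), Finset.mem_image.mpr ⟨(σ, τ), Finset.mem_filter.mpr
        ⟨Finset.mem_univ _, hne⟩, rfl⟩, ?_⟩
      show a ∈ W (σ, τ)
      rw [LinearMap.mem_ker, Fintype.linearCombination_apply]
      have h1 : σ (∑ b, a b • x b) = τ (∑ b, a b • x b) := hστ
      rw [hz, hz] at h1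
      simp only [smul_sub, Finset.sum_sub_distrib, h1, sub_self])
  exact (IntermediateField.adjoin_simple_eq_top_iff_of_isAlgebraic
    (Algebra.IsAlgebraic.isAlgebraic _)).mp hprim

/-- A primitive linear combination, with denominators cleared. -/
theorem exists_prim_ring {B A : Type*} [CommRing B] [IsDomain B] [CommRing A] [IsDomain A]
    [Algebra ℂ B] [Algebra ℂ A] [Algebra B A] [IsScalarTower ℂ B A] [Algebra.IsIntegral B A]
    (hinj : Function.Injective (algebraMap B A)) {ρ : Type*} [Fintype ρ] (x : ρ → A)
    (hx : Algebra.adjoin ℂ (Set.range x) = ⊤) :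
    ∃ a : ρ → ℂ, ∃ D : B, D ≠ 0 ∧ ∀ b, ∃ g : Polynomial B,
      algebraMap B A D * x b = Polynomial.aeval (∑ b, a b • x b) g := by
  classical
  have hf : FaithfulSMul B A := (faithfulSMul_iff_algebraMap_injective B A).mpr hinj
  set K := FractionRing B with hK
  set L := FractionRing A with hL
  have hBL : Function.Injective (algebraMap B L) := by
    rw [IsScalarTower.algebraMap_eq B A L]
    exact (IsFractionRing.injective A L).comp hinj
  have hfL : FaithfulSMul B L := (faithfulSMul_iff_algebraMap_injective B L).mpr hBL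
  letI : Algebra K L := FractionRing.liftAlgebra B L
  haveI : IsScalarTower B K L := FractionRing.isScalarTower_liftAlgebra B L
  haveI : IsScalarTower ℂ K L := by
    refine IsScalarTower.of_algebraMap_eq (fun t => ?_)
    rw [IsScalarTower.algebraMap_apply ℂ B K, ← IsScalarTower.algebraMap_apply B K L,
      IsScalarTower.algebraMap_apply B A L, ← IsScalarTower.algebraMap_apply ℂ B A,
      ← IsScalarTower.algebraMap_apply ℂ A L]
  have hint : ∀ y : A, IsIntegral K (algebraMap A L y) := by
    intro y
    have h1 : IsIntegral B (algebraMap A L y) :=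
      (Algebra.IsIntegral.isIntegral (R := B) y).algebraMap
    exact h1.tower_top
  have hadj : Algebra.adjoin K (Set.range fun b => algebraMap A L (x b)) = ⊤ := by
    rw [eq_top_iff]
    have hA : ∀ y : A, algebraMap A L y ∈
        Algebra.adjoin K (Set.range fun b => algebraMap A L (x b)) := by
      intro y
      have hy : y ∈ Algebra.adjoin ℂ (Set.range x) := by rw [hx]; exact Algebra.mem_top
      induction hy using Algebra.adjoin_induction with
      | mem y hy =>
        obtain ⟨b, rfl⟩ := hy
        exact Algebra.subset_adjoin ⟨b, rfl⟩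
      | algebraMap t =>
        rw [← IsScalarTower.algebraMap_apply ℂ A L, IsScalarTower.algebraMap_apply ℂ K L]
        exact Subalgebra.algebraMap_mem _ _
      | add y z _ _ h1 h2 => rw [map_add]; exact Subalgebra.add_mem _ h1 h2
      | mul y z _ _ h1 h2 => rw [map_mul]; exact Subalgebra.mul_mem _ h1 h2
    intro w _
    obtain ⟨y, z, hz, rfl⟩ := IsFractionRing.div_surjective A w
    have hz0 : algebraMap A L z ≠ 0 :=
      IsFractionRing.to_map_ne_zero_of_mem_nonZeroDivisors hz
    rw [div_eq_mul_inv]
    refine Subalgebra.mul_mem _ (hA y) ?_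
    -- the inverse of an algebraic element
    have halg : IsAlgebraic K (algebraMap A L z) := (hint z).isAlgebraic
    have h1 := Subalgebra.inv_mem_of_algebraic
      (Algebra.adjoin K (Set.range fun b => algebraMap A L (x b)))
      (x := ⟨algebraMap A L z, hA z⟩) halg
    exact h1
  obtain ⟨-, a, ha⟩ := exists_prim_field (K := K) (L := L)
    (fun b => algebraMap A L (x b)) hadj (fun b => hint (x b))
  have hsum : ∑ b, a b • algebraMap A L (x b) = algebraMap A L (∑ b, a b • x b) := by
    rw [map_sum]
    refine Finset.sum_congr rfl (fun b _ => ?_)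
    rw [Algebra.smul_def, Algebra.smul_def, map_mul, ← IsScalarTower.algebraMap_apply ℂ A L]
  rw [hsum] at ha
  have hb : ∀ b, ∃ D : B, D ≠ 0 ∧ ∃ g : Polynomial B,
      algebraMap B A D * x b = Polynomial.aeval (∑ b, a b • x b) g := by
    intro b
    have h1 : algebraMap A L (x b) ∈ Algebra.adjoin K {algebraMap A L (∑ b, a b • x b)} := by
      rw [ha]; exact Algebra.mem_top
    rw [Algebra.adjoin_singleton_eq_range_aeval] at h1
    obtain ⟨p, hp⟩ := h1
    obtain ⟨D, hD, hDp⟩ := IsLocalization.integerNormalization_spec (nonZeroDivisors B) p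
    refine ⟨D, nonZeroDivisors.ne_zero hD,
      IsLocalization.integerNormalization (nonZeroDivisors B) p, ?_⟩
    apply IsFractionRing.injective A L
    rw [map_mul, ← IsScalarTower.algebraMap_apply B A L, ← Polynomial.aeval_algebraMap_apply,
      ← Polynomial.aeval_map_algebraMap K, hDp]
    have hp' : Polynomial.aeval (algebraMap A L (∑ b, a b • x b)) p = algebraMap A L (x b) := hp
    rw [← algebraMap_smul K D p, map_smul, hp', Algebra.smul_def,
      ← IsScalarTower.algebraMap_apply B K L]
  choose D hD g hg using hb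
  refine ⟨a, ∏ b, D b, Finset.prod_ne_zero_iff.mpr (fun b _ => hD b), fun b => ?_⟩
  refine ⟨Polynomial.C (∏ b' ∈ Finset.univ.erase b, D b') * g b, ?_⟩
  rw [map_mul, Polynomial.aeval_C, ← hg b, ← mul_assoc, ← map_mul]
  congr 2
  rw [mul_comm, Finset.mul_prod_erase _ _ (Finset.mem_univ b)]

end Prim

end Pool.Agent.Hartshorne
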