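import Mathlib
import Pool.Agent.HartD.Noether
import Pool.Agent.HartD.Prim

/-!
The projection of a variety to a hypersurface.
-/

namespace Pool.Agent.Hartshorne

open MvPolynomial

set_option linter.unusedSectionVars false

section Data

variable {ρ : Type*} [Fintype ρ] [DecidableEq ρ] {n : ℕ}

/-- Evaluation of a polynomial in `n` linear forms and one more form. -/
noncomputable def pev (lam : (ρ → ℂ) →ₗ[ℂ] (Fin n → ℂ)) (z : MvPolynomial ρ ℂ) :
    Polynomial (MvPolynomial (Fin n) ℂ) →+* MvPolynomial ρ ℂ :=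
  Polynomial.eval₂RingHom (lsub lam).toRingHom z

variable {lam : (ρ → ℂ) →ₗ[ℂ] (Fin n → ℂ)} {z : MvPolynomial ρ ℂ}

lemma pev_C (a : MvPolynomial (Fin n) ℂ) : pev lam z (Polynomial.C a) = lsub lam a := by
  simp [pev]

lemma pev_X : pev lam z Polynomial.X = z := by
  simp [pev]

lemma pev_eq_sum (p : Polynomial (MvPolynomial (Fin n) ℂ)) {d : ℕ} (hd : p.natDegree < d) :
    pev lam z p = ∑ i ∈ Finset.range d, lsub lam (p.coeff i) * z ^ i := by
  rw [pev, Polynomial.coe_eval₂RingHom, Polynomial.eval₂_eq_sum_range' _ hd]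
  rfl

/-- Homogeneous version of a polynomial. -/
noncomputable def hpoly (d : ℕ) (p : Polynomial (MvPolynomial (Fin n) ℂ)) :
    Polynomial (MvPolynomial (Fin n) ℂ) :=
  ∑ i ∈ Finset.range (d + 1), Polynomial.monomial i (homogeneousComponent (d - i) (p.coeff i))

lemma hpoly_coeff (d : ℕ) (p : Polynomial (MvPolynomial (Fin n) ℂ)) (i : ℕ) :
    (hpoly d p).coeff i = if i ≤ d then homogeneousComponent (d - i) (p.coeff i) else 0 := by
  rw [hpoly, Polynomial.finsetSum_coeff]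
  simp only [Polynomial.coeff_monomial]
  rw [Finset.sum_ite_eq' (Finset.range (d + 1)) i]
  simp only [Finset.mem_range, Nat.lt_succ_iff]

lemma hpoly_natDegree (d : ℕ) (p : Polynomial (MvPolynomial (Fin n) ℂ)) :
    (hpoly d p).natDegree ≤ d := by
  rw [Polynomial.natDegree_le_iff_coeff_eq_zero]
  intro i hi
  rw [hpoly_coeff, if_neg (by omega)]

lemma hpoly_monic {p : Polynomial (MvPolynomial (Fin n) ℂ)} (hp : p.Monic) :
    (hpoly p.natDegree p).Monic ∧ (hpoly p.natDegree p).natDegree = p.natDegree := by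
  have h1 : (hpoly p.natDegree p).coeff p.natDegree = 1 := by
    rw [hpoly_coeff, if_pos le_rfl, Nat.sub_self, hp.coeff_natDegree]
    exact homogeneousComponent_eq_self (isHomogeneous_one _ _)
  have h2 := Polynomial.monic_of_natDegree_le_of_coeff_eq_one _ (hpoly_natDegree _ p) h1
  refine ⟨h2, le_antisymm (hpoly_natDegree _ p) (Polynomial.le_natDegree_of_ne_zero ?_)⟩
  rw [h1]
  exact one_ne_zero

lemma pev_hpoly (hz : z.IsHomogeneous 1) (p : Polynomial (MvPolynomial (Fin n) ℂ)) :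
    pev lam z (hpoly p.natDegree p) = homogeneousComponent p.natDegree (pev lam z p) := by
  rw [pev_eq_sum _ (Nat.lt_succ_of_le (hpoly_natDegree _ _)), pev_eq_sum _ (Nat.lt_succ_self _),
    map_sum]
  refine Finset.sum_congr rfl (fun i hi => ?_)
  rw [Finset.mem_range, Nat.lt_succ_iff] at hi
  have h1 : (z ^ i).IsHomogeneous i := by
    have := hz.pow i
    rwa [one_mul] at this
  rw [hpoly_coeff, if_pos hi, homogeneousComponent_mul_right h1, if_pos hi,
    hc_algHom _ (isHomogeneous_lsub lam)]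

/-- The data of a projection to a hypersurface. -/
structure PData (I : Ideal (MvPolynomial ρ ℂ)) (lam : (ρ → ℂ) →ₗ[ℂ] (Fin n → ℂ))
    (z : MvPolynomial ρ ℂ) (f : Polynomial (MvPolynomial (Fin n) ℂ))
    (D : MvPolynomial (Fin n) ℂ) (g : ρ → Polynomial (MvPolynomial (Fin n) ℂ)) : Prop where
  hz : z.IsHomogeneous 1
  monic : f.Monic
  hom : ∀ i ≤ f.natDegree, (f.coeff i).IsHomogeneous (f.natDegree - i)
  ker : ∀ h, pev lam z h ∈ I ↔ f ∣ h
  D0 : D ≠ 0
  rat : ∀ b, lsub lam D * X b - pev lam z (g b) ∈ I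
  int : ∀ b, ∃ p : Polynomial (MvPolynomial (Fin n) ℂ), p.Monic ∧
    (∀ i ≤ p.natDegree, (p.coeff i).IsHomogeneous (p.natDegree - i)) ∧ pev lam (X b) p ∈ I

theorem exists_pdata (I : Ideal (MvPolynomial ρ ℂ)) (hI : I.IsPrime) (hhom : HI I)
    (hdim : ringKrullDim (MvPolynomial ρ ℂ ⧸ I) = ((n : ℕ) : WithBot ℕ∞))
    (hn : n ≤ Fintype.card ρ) :
    ∃ (lam : (ρ → ℂ) →ₗ[ℂ] (Fin n → ℂ)) (z : MvPolynomial ρ ℂ)
      (f : Polynomial (MvPolynomial (Fin n) ℂ)) (D : MvPolynomial (Fin n) ℂ)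
      (g : ρ → Polynomial (MvPolynomial (Fin n) ℂ)), PData I lam z f D g := by
  classical
  obtain ⟨lam, hlam⟩ := exists_lamD I hhom hdim.le hn
  have hinj := noe_injective I hhom lam hlam hdim.ge
  have hint := noe_integral I hhom lam hlam
  have hdom : IsDomain (MvPolynomial ρ ℂ ⧸ I) := Ideal.Quotient.isDomain I
  let halg : Algebra (MvPolynomial (Fin n) ℂ) (MvPolynomial ρ ℂ ⧸ I) :=
    (noe I lam).toRingHom.toAlgebra
  have hmap : ∀ a, algebraMap (MvPolynomial (Fin n) ℂ) (MvPolynomial ρ ℂ ⧸ I) a =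
      Ideal.Quotient.mk I (lsub lam a) := fun a => rfl
  have hst : IsScalarTower ℂ (MvPolynomial (Fin n) ℂ) (MvPolynomial ρ ℂ ⧸ I) := by
    refine IsScalarTower.of_algebraMap_eq (fun t => ?_)
    exact ((noe I lam).commutes t).symm
  have hii : Algebra.IsIntegral (MvPolynomial (Fin n) ℂ) (MvPolynomial ρ ℂ ⧸ I) := ⟨hint⟩
  have hpev : ∀ (w : MvPolynomial ρ ℂ) (h : Polynomial (MvPolynomial (Fin n) ℂ)),
      Polynomial.aeval (Ideal.Quotient.mk I w) h = Ideal.Quotient.mk I (pev lam w h) := by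
    intro w h
    rw [pev, Polynomial.coe_eval₂RingHom, Polynomial.hom_eval₂]
    rfl
  have hadj : Algebra.adjoin ℂ (Set.range fun b => Ideal.Quotient.mk I (X b : MvPolynomial ρ ℂ)) =
      ⊤ := by
    rw [eq_top_iff]
    intro w _
    obtain ⟨w, rfl⟩ := Ideal.Quotient.mkₐ_surjective ℂ I w
    have h1 : Algebra.adjoin ℂ (Set.range (X : ρ → MvPolynomial ρ ℂ)) ≤
        (Algebra.adjoin ℂ (Set.range fun b =>
          Ideal.Quotient.mk I (X b : MvPolynomial ρ ℂ))).comap (Ideal.Quotient.mkₐ ℂ I) := by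
      rw [Algebra.adjoin_le_iff]
      rintro _ ⟨b, rfl⟩
      exact Algebra.subset_adjoin ⟨b, rfl⟩
    rw [adjoin_range_X] at h1
    exact h1 (Algebra.mem_top (x := w))
  obtain ⟨a, D, hD, hg⟩ := exists_prim_ring (B := MvPolynomial (Fin n) ℂ) hinj
    (fun b => Ideal.Quotient.mk I (X b : MvPolynomial ρ ℂ)) hadj
  choose g hg using hg
  set z : MvPolynomial ρ ℂ := ∑ b, C (a b) * X b with hz
  have hzq : ∑ b, a b • Ideal.Quotient.mk I (X b : MvPolynomial ρ ℂ) =
      Ideal.Quotient.mk I z := by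
    rw [hz, map_sum]
    refine Finset.sum_congr rfl (fun b _ => ?_)
    rw [← smul_eq_C_mul]
    rfl
  have hzh : z.IsHomogeneous 1 := IsHomogeneous.sum _ _ _ (fun b _ => isHomogeneous_C_mul_X _ _)
  have htf : Module.IsTorsionFree (MvPolynomial (Fin n) ℂ) (MvPolynomial ρ ℂ ⧸ I) := by
    have hf : FaithfulSMul (MvPolynomial (Fin n) ℂ) (MvPolynomial ρ ℂ ⧸ I) :=
      (faithfulSMul_iff_algebraMap_injective _ _).mpr hinj
    infer_instance
  have hzi : IsIntegral (MvPolynomial (Fin n) ℂ) (Ideal.Quotient.mk I z) := hii.isIntegral _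
  set f := minpoly (MvPolynomial (Fin n) ℂ) (Ideal.Quotient.mk I z) with hf
  have hker : ∀ h, pev lam z h ∈ I ↔ f ∣ h := by
    intro h
    rw [hf, ← minpoly.isIntegrallyClosed_dvd_iff hzi, hpev, Ideal.Quotient.eq_zero_iff_mem]
  have hfm : f.Monic := minpoly.monic hzi
  refine ⟨lam, z, f, D, g, hzh, hfm, ?_, hker, hD, ?_, ?_⟩
  · -- homogeneity
    have h1 := hpoly_monic hfm
    have h2 : f ∣ hpoly f.natDegree f := by
      rw [← hker, pev_hpoly hzh]
      exact hhom _ ((hker f).mpr dvd_rfl) _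
    have h3 : hpoly f.natDegree f = f :=
      (Polynomial.eq_of_monic_of_dvd_of_natDegree_le hfm h1.1 h2 h1.2.le)
    intro i hi
    have h4 := hpoly_coeff f.natDegree f i
    rw [h3, if_pos hi] at h4
    rw [h4]
    exact homogeneousComponent_isHomogeneous _ _
  · intro b
    rw [← Ideal.Quotient.eq_zero_iff_mem, map_sub, map_mul, ← hpev, ← hzq, ← hg b, hmap, sub_self]
  · intro b
    obtain ⟨p, hp, hpx⟩ := hint (Ideal.Quotient.mk I (X b))
    have h1 := hpoly_monic hp
    refine ⟨hpoly p.natDegree p, h1.1, ?_, ?_⟩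
    · intro i hi
      rw [h1.2] at hi ⊢
      rw [hpoly_coeff, if_pos hi]
      exact homogeneousComponent_isHomogeneous _ _
    · rw [pev_hpoly (isHomogeneous_X _ _)]
      apply hhom
      rw [← Ideal.Quotient.eq_zero_iff_mem, ← hpev]
      exact hpx

end Data

end Pool.Agent.Hartshorne
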