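import Mathlib
import Pool.Agent.HartD.Data
import Pool.Agent.HartA.Basic
import Pool.Agent.HartN.LocusK

/-!
Lines of the hypersurface through a general point lift to lines of the variety.
-/

namespace Pool.Agent.Hartshorne

open MvPolynomial

set_option linter.unusedSectionVars false

section Aux

variable {ρ : Type} [Fintype ρ] [DecidableEq ρ] {n : ℕ}

/-- The derivative along a line. -/
lemma dot_of_eq {y v : ρ → ℂ} {f : MvPolynomial ρ ℂ} (H : Polynomial ℂ)
    (h : ∀ s : ℂ, eval (y + s • v) f = H.eval s) :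
    grad y f ⬝ᵥ v = (Polynomial.derivative H).eval 0 := by
  have h1 : HartA.lineP y v f = H := by
    apply Polynomial.funext
    intro s
    rw [HartA.eval_lineP, h]
  have h2 : ∀ f : MvPolynomial ρ ℂ, (Polynomial.derivative (HartA.lineP y v f)).eval 0 =
      grad y f ⬝ᵥ v := by
    intro f
    induction f using MvPolynomial.induction_on with
    | C t => simp [HartA.lineP, dotProduct, grad_apply]
    | add p q hp hq =>
      rw [map_add, map_add, Polynomial.eval_add, hp, hq, map_add, add_dotProduct]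
    | mul_X p i hp =>
      rw [map_mul, Polynomial.derivative_mul, Polynomial.eval_add, Polynomial.eval_mul,
        Polynomial.eval_mul, hp]
      have h3 : (HartA.lineP y v p).eval 0 = eval y p := by
        rw [HartA.eval_lineP, zero_smul, add_zero]
      have h4 : (HartA.lineP y v (X i)).eval 0 = y i := by
        rw [HartA.eval_lineP, zero_smul, add_zero, eval_X]
      have h5 : (Polynomial.derivative (HartA.lineP y v (X i : MvPolynomial ρ ℂ))).eval 0 = v i := by
        simp [HartA.lineP]
      rw [h3, h4, h5]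
      have h6 : grad y (p * X i) = y i • grad y p + Pi.single i (eval y p) := by
        funext b
        rw [grad_apply, pderiv_mul, map_add, map_mul, map_mul, eval_X, Pi.add_apply,
          Pi.smul_apply, grad_apply, smul_eq_mul]
        by_cases hb : b = i
        · rw [hb, pderiv_X_self, map_one, Pi.single_eq_same]
          ring
        · rw [pderiv_X_of_ne (Ne.symm hb), map_zero, Pi.single_eq_of_ne hb]
          ring
      rw [h6, add_dotProduct, smul_dotProduct, single_dotProduct, smul_eq_mul]
      ring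
  rw [← h2, h1]

/-- Restriction to a parametrized line. -/
noncomputable def lnB (p w : Fin n → ℂ) : MvPolynomial (Fin n) ℂ →ₐ[ℂ] Polynomial ℂ :=
  aeval (fun j => Polynomial.C (w j) * Polynomial.X + Polynomial.C (p j))

lemma eval_lnB (p w : Fin n → ℂ) (a : MvPolynomial (Fin n) ℂ) (t : ℂ) :
    (lnB p w a).eval t = eval (p + t • w) a := by
  have h1 : (Polynomial.evalRingHom t).comp (lnB p w).toRingHom = eval (p + t • w) := by
    apply MvPolynomial.ringHom_ext
    · intro c
      simp [lnB]
    · intro j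
      rw [RingHom.comp_apply, AlgHom.toRingHom_eq_coe, RingHom.coe_coe, lnB, aeval_X,
        Polynomial.coe_evalRingHom, eval_X, Polynomial.eval_add, Polynomial.eval_mul,
        Polynomial.eval_C, Polynomial.eval_X, Polynomial.eval_C, Pi.add_apply, Pi.smul_apply,
        smul_eq_mul]
      ring
  exact congrArg (fun F : MvPolynomial (Fin n) ℂ →+* ℂ => F a) h1

lemma natDegree_lnB (p w : Fin n → ℂ) {a : MvPolynomial (Fin n) ℂ} {k : ℕ}
    (ha : a.IsHomogeneous k) : (lnB p w a).natDegree ≤ k := by
  have h1 := MvPolynomial.aeval_natDegree_le a ha.totalDegree_le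
    (fun j => Polynomial.C (w j) * Polynomial.X + Polynomial.C (p j)) (n := 1)
    (fun j => Polynomial.natDegree_linear_le)
  rwa [mul_one] at h1

/-- A polynomial function which satisfies a homogeneous equation of integral dependence has degree
at most one. -/
lemma natDegree_le_one {d : ℕ} (w : Polynomial ℂ) (a : ℕ → Polynomial ℂ)
    (ha : ∀ i ≤ d, (a i).natDegree ≤ d - i) (had : a d = 1)
    (hsum : ∑ i ∈ Finset.range (d + 1), a i * w ^ i = 0) : w.natDegree ≤ 1 := by
  by_contra hq
  push Not at hq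
  rw [Finset.sum_range_succ, had, one_mul] at hsum
  have h1 : w ^ d = - ∑ i ∈ Finset.range d, a i * w ^ i := eq_neg_of_add_eq_zero_right hsum
  rcases Nat.eq_zero_or_pos d with hd | hd
  · subst hd
    simp at hsum
  have h2 : (w ^ d).natDegree = d * w.natDegree := Polynomial.natDegree_pow w d
  have h3 : (∑ i ∈ Finset.range d, a i * w ^ i).natDegree ≤ d * w.natDegree - 1 := by
    refine Polynomial.natDegree_sum_le_of_forall_le _ _ (fun i hi => ?_)
    rw [Finset.mem_range] at hi
    refine Polynomial.natDegree_mul_le.trans ?_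
    rw [Polynomial.natDegree_pow]
    have h4 := ha i hi.le
    obtain ⟨k, rfl⟩ : ∃ k, d = i + (k + 1) := ⟨d - i - 1, by omega⟩
    obtain ⟨q, hqq⟩ : ∃ q, w.natDegree = q + 2 := ⟨w.natDegree - 2, by omega⟩
    rw [hqq]
    have h5 : i + (k + 1) - i = k + 1 := by omega
    rw [h5] at h4
    have h6 : (i + (k + 1)) * (q + 2) = i * (q + 2) + ((k + 1) * q + 2 * (k + 1)) := by ring
    rw [h6]
    omega
  rw [h1, Polynomial.natDegree_neg] at h2
  rw [h2] at h3
  have h4 : 0 < d * w.natDegree := Nat.mul_pos hd (by omega)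
  omega

end Aux

section Lift

variable {ρ : Type} [Fintype ρ] [DecidableEq ρ] {n : ℕ} {I : Ideal (MvPolynomial ρ ℂ)}
  {lam : (ρ → ℂ) →ₗ[ℂ] (Fin n → ℂ)} {z : MvPolynomial ρ ℂ}
  {f : Polynomial (MvPolynomial (Fin n) ℂ)} {D : MvPolynomial (Fin n) ℂ}
  {g : ρ → Polynomial (MvPolynomial (Fin n) ℂ)}

/-- **Lifting of lines.** -/
theorem PData.lift (h : PData I lam z f D g) (hI : I.IsPrime) {x v : ρ → ℂ}
    (hx : ∀ q ∈ I, eval x q = 0) (hD : eval (lam x) D ≠ 0)
    (hT : ∀ q ∈ I, grad x q ⬝ᵥ v = 0) (hF : ∀ t : ℂ, eval (x + t • v) (pev lam z f) = 0) :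
    ∀ t : ℂ, ∀ q ∈ I, eval (x + t • v) q = 0 := by
  classical
  set θ : Polynomial (MvPolynomial (Fin n) ℂ) →+* Polynomial ℂ :=
    Polynomial.eval₂RingHom (lnB (lam x) (lam v)).toRingHom
      (Polynomial.C (eval v z) * Polynomial.X + Polynomial.C (eval x z)) with hθ
  have hθC : ∀ a, θ (Polynomial.C a) = lnB (lam x) (lam v) a := by
    intro a
    simp [hθ]
  have hθe : ∀ q t, (θ q).eval t = eval (x + t • v) (pev lam z q) := by
    intro q t
    have h1 : (Polynomial.evalRingHom t).comp θ = (eval (x + t • v)).comp (pev lam z) := by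
      apply Polynomial.ringHom_ext
      · intro a
        rw [RingHom.comp_apply, RingHom.comp_apply, hθC, pev_C, Polynomial.coe_evalRingHom,
          eval_lnB, eval_lsub, map_add, map_smul]
      · rw [RingHom.comp_apply, RingHom.comp_apply, pev_X, hθ, Polynomial.coe_eval₂RingHom,
          Polynomial.eval₂_X, Polynomial.coe_evalRingHom, eval_of_isHomogeneous_one h.hz,
          eval_of_isHomogeneous_one h.hz, eval_of_isHomogeneous_one h.hz, dotProduct_add,
          dotProduct_smul]
        simp only [Polynomial.eval_add, Polynomial.eval_mul, Polynomial.eval_C,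
          Polynomial.eval_X, smul_eq_mul]
        ring
    exact congrArg (fun F : Polynomial (MvPolynomial (Fin n) ℂ) →+* ℂ => F q) h1
  have hθf : θ f = 0 := by
    apply Polynomial.funext
    intro t
    rw [hθe, hF, Polynomial.eval_zero]
  have hθ0 : ∀ q, f ∣ q → θ q = 0 := by
    rintro _ ⟨q, rfl⟩
    rw [map_mul, hθf, zero_mul]
  set δ : Polynomial ℂ := lnB (lam x) (lam v) D with hδ
  have hδ0 : δ ≠ 0 := by
    intro h0
    apply hD
    have h1 := eval_lnB (lam x) (lam v) D 0
    rw [← hδ, h0, Polynomial.eval_zero, zero_smul, add_zero] at h1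
    exact h1.symm
  set Kt := FractionRing (Polynomial ℂ) with hKt
  have hinj : Function.Injective (algebraMap (Polynomial ℂ) Kt) := IsFractionRing.injective _ _
  have hδK : algebraMap (Polynomial ℂ) Kt δ ≠ 0 := by
    rw [Ne, ← map_zero (algebraMap (Polynomial ℂ) Kt), hinj.eq_iff]
    exact hδ0
  set ξ : ρ → Kt := fun b => algebraMap (Polynomial ℂ) Kt (θ (g b)) / algebraMap (Polynomial ℂ) Kt δ
    with hξ
  have hξδ : ∀ b, algebraMap (Polynomial ℂ) Kt δ * ξ b = algebraMap (Polynomial ℂ) Kt (θ (g b)) :=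
    fun b => mul_div_cancel₀ _ hδK
  -- every polynomial is, up to a power of the denominator, a polynomial in the forms
  have key : ∀ p : MvPolynomial ρ ℂ, ∃ (k : ℕ) (G : Polynomial (MvPolynomial (Fin n) ℂ)),
      lsub lam D ^ k * p - pev lam z G ∈ I ∧
      algebraMap (Polynomial ℂ) Kt δ ^ k * aeval ξ p = algebraMap (Polynomial ℂ) Kt (θ G) := by
    intro p
    induction p using MvPolynomial.induction_on with
    | C t =>
      refine ⟨0, Polynomial.C (C t), ?_, ?_⟩
      · have h1 : lsub lam (C t : MvPolynomial (Fin n) ℂ) = C t := (lsub lam).commutes t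
        rw [pow_zero, one_mul, pev_C, h1, sub_self]
        exact I.zero_mem
      · have h1 : lnB (lam x) (lam v) (C t : MvPolynomial (Fin n) ℂ) = Polynomial.C t :=
          (lnB (lam x) (lam v)).commutes t
        have h2 : aeval ξ (C t : MvPolynomial ρ ℂ) = algebraMap ℂ Kt t := (aeval ξ).commutes t
        rw [pow_zero, one_mul, hθC, h1, h2, IsScalarTower.algebraMap_apply ℂ (Polynomial ℂ) Kt]
        rfl
    | add p q hp hq =>
      obtain ⟨k₁, G₁, h1, h2⟩ := hp
      obtain ⟨k₂, G₂, h3, h4⟩ := hq
      refine ⟨k₁ + k₂, Polynomial.C (D ^ k₂) * G₁ + Polynomial.C (D ^ k₁) * G₂, ?_, ?_⟩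
      · have h5 : lsub lam D ^ (k₁ + k₂) * (p + q) -
            pev lam z (Polynomial.C (D ^ k₂) * G₁ + Polynomial.C (D ^ k₁) * G₂) =
            lsub lam D ^ k₂ * (lsub lam D ^ k₁ * p - pev lam z G₁) +
            lsub lam D ^ k₁ * (lsub lam D ^ k₂ * q - pev lam z G₂) := by
          rw [map_add, map_mul, map_mul, pev_C, pev_C, map_pow, map_pow]
          ring
        rw [h5]
        exact Ideal.add_mem _ (Ideal.mul_mem_left _ _ h1) (Ideal.mul_mem_left _ _ h3)
      · rw [map_add, map_add, map_mul, map_mul, hθC, hθC, map_pow, map_pow, ← hδ, map_add, map_mul,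
          map_mul, map_pow, map_pow, ← h2, ← h4]
        ring
    | mul_X p b hp =>
      obtain ⟨k, G, h1, h2⟩ := hp
      refine ⟨k + 1, G * g b, ?_, ?_⟩
      · have h5 : lsub lam D ^ (k + 1) * (p * X b) - pev lam z (G * g b) =
            (lsub lam D * X b) * (lsub lam D ^ k * p - pev lam z G) +
            pev lam z G * (lsub lam D * X b - pev lam z (g b)) := by
          rw [map_mul]
          ring
        rw [h5]
        exact Ideal.add_mem _ (Ideal.mul_mem_left _ _ h1) (Ideal.mul_mem_left _ _ (h.rat b))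
      · rw [map_mul, map_mul, map_mul, aeval_X, ← h2, ← hξδ b]
        ring
  have hξI : ∀ p ∈ I, aeval ξ p = 0 := by
    intro p hp
    obtain ⟨k, G, h1, h2⟩ := key p
    have h3 : pev lam z G ∈ I := by
      have h4 := Ideal.sub_mem _ (Ideal.mul_mem_left _ (lsub lam D ^ k) hp) h1
      rwa [sub_sub_cancel] at h4
    rw [hθ0 _ ((h.ker G).mp h3), map_zero] at h2
    rcases mul_eq_zero.mp h2 with h4 | h4
    · exact absurd h4 (pow_ne_zero _ hδK)
    · exact h4
  have hξp : ∀ q, aeval ξ (pev lam z q) = algebraMap (Polynomial ℂ) Kt (θ q) := by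
    intro q
    obtain ⟨k, G, h1, h2⟩ := key (pev lam z q)
    have h3 : pev lam z (Polynomial.C (D ^ k) * q - G) ∈ I := by
      rw [map_sub, map_mul, pev_C, map_pow]
      exact h1
    have h4 := hθ0 _ ((h.ker _).mp h3)
    rw [map_sub, map_mul, hθC, map_pow, ← hδ, sub_eq_zero] at h4
    rw [← h4, map_mul, map_pow] at h2
    exact mul_left_cancel₀ (pow_ne_zero _ hδK) h2
  have hξl : ∀ a, aeval ξ (lsub lam a) = algebraMap (Polynomial ℂ) Kt (lnB (lam x) (lam v) a) := by
    intro a
    rw [← hθC, ← hξp, pev_C]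
  -- the coordinates are polynomials of degree at most one
  have hw : ∀ b, ∃ w : Polynomial ℂ, algebraMap (Polynomial ℂ) Kt w = ξ b ∧ w.natDegree ≤ 1 := by
    intro b
    obtain ⟨p, hpm, hph, hpI⟩ := h.int b
    have h1 := hξI _ hpI
    rw [pev_eq_sum p (Nat.lt_succ_self _), map_sum] at h1
    have h2 : ∀ i, aeval ξ (lsub lam (p.coeff i) * X b ^ i) =
        algebraMap (Polynomial ℂ) Kt (lnB (lam x) (lam v) (p.coeff i)) * ξ b ^ i := by
      intro i
      rw [map_mul, map_pow, aeval_X, hξl]
    rw [Finset.sum_congr rfl (fun i _ => h2 i)] at h1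
    have h3 : IsIntegral (Polynomial ℂ) (ξ b) := by
      refine ⟨p.map (lnB (lam x) (lam v)).toRingHom, hpm.map _, ?_⟩
      rw [Polynomial.eval₂_map, Polynomial.eval₂_eq_sum_range]
      exact h1
    obtain ⟨w, hw⟩ := (IsIntegrallyClosed.isIntegral_iff (K := Kt)).mp h3
    refine ⟨w, hw, natDegree_le_one (d := p.natDegree) w
      (fun i => lnB (lam x) (lam v) (p.coeff i)) (fun i hi => natDegree_lnB _ _ (hph i hi)) ?_ ?_⟩
    · show lnB (lam x) (lam v) (p.coeff p.natDegree) = 1
      rw [hpm.coeff_natDegree, map_one]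
    · apply hinj
      rw [map_sum, map_zero, ← h1]
      refine Finset.sum_congr rfl (fun i _ => ?_)
      rw [map_mul, map_pow, hw]
  choose w hwξ hwd using hw
  have hwa : ∀ a : MvPolynomial ρ ℂ, algebraMap (Polynomial ℂ) Kt (aeval w a) = aeval ξ a := by
    intro a
    have h1 : (IsScalarTower.toAlgHom ℂ (Polynomial ℂ) Kt).comp (aeval w) = aeval ξ := by
      apply MvPolynomial.algHom_ext
      intro b
      rw [AlgHom.comp_apply, aeval_X, aeval_X]
      exact hwξ b
    exact congrArg (fun F : MvPolynomial ρ ℂ →ₐ[ℂ] Kt => F a) h1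
  have hwe : ∀ (a : MvPolynomial ρ ℂ) (t : ℂ), (aeval w a).eval t = eval (fun b => (w b).eval t) a := by
    intro a t
    have h1 : (Polynomial.evalRingHom t).comp (aeval w : MvPolynomial ρ ℂ →ₐ[ℂ] Polynomial ℂ).toRingHom =
        eval (fun b => (w b).eval t) := by
      apply MvPolynomial.ringHom_ext
      · intro c
        simp
      · intro j
        simp
    exact congrArg (fun F : MvPolynomial ρ ℂ →+* ℂ => F a) h1
  have hwδ : ∀ b, δ * w b = θ (g b) := by
    intro b
    apply hinj
    rw [map_mul, hwξ, hξδ]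
  have hpx : ∀ b, eval (lam x) D * x b = eval x (pev lam z (g b)) := by
    intro b
    have h1 := hx _ (h.rat b)
    rw [map_sub, map_mul, eval_X, eval_lsub, sub_eq_zero] at h1
    exact h1
  have hw0 : ∀ b, (w b).eval 0 = x b := by
    intro b
    have h1 := congrArg (Polynomial.eval 0) (hwδ b)
    rw [Polynomial.eval_mul, hδ, eval_lnB, hθe, zero_smul, add_zero, zero_smul, add_zero,
      ← hpx b] at h1
    exact mul_left_cancel₀ hD h1
  obtain ⟨v', hv'⟩ : ∃ v' : ρ → ℂ, v' = fun b => (w b).coeff 1 := ⟨_, rfl⟩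
  have hwt : ∀ t : ℂ, (fun b => (w b).eval t) = x + t • v' := by
    intro t
    funext b
    have h1 := Polynomial.eq_X_add_C_of_natDegree_le_one (hwd b)
    have h2 := hw0 b
    rw [h1] at h2
    rw [h1, Pi.add_apply, Pi.smul_apply, smul_eq_mul, hv']
    simp only [Polynomial.eval_add, Polynomial.eval_mul, Polynomial.eval_C,
      Polynomial.eval_X, mul_zero, zero_add] at h2 ⊢
    rw [h2]
    ring
  have hI' : ∀ t : ℂ, ∀ q ∈ I, eval (x + t • v') q = 0 := by
    intro t q hq
    rw [← hwt, ← hwe]
    have h1 : aeval w q = (0 : Polynomial ℂ) := by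
      apply hinj
      rw [hwa, hξI q hq, map_zero]
    rw [h1, Polynomial.eval_zero]
  have hpe : ∀ (t : ℂ) q, eval (x + t • v') (pev lam z q) = eval (x + t • v) (pev lam z q) := by
    intro t q
    rw [← hwt, ← hwe, ← hθe]
    congr 1
    apply hinj
    rw [hwa, hξp]
  -- the two directions agree
  have hvv : v' = v := by
    funext b
    have h1 : ∀ s : ℂ, eval (x + s • v) (lsub lam D * X b - pev lam z (g b)) =
        (δ * (Polynomial.C (v b - v' b) * Polynomial.X)).eval s := by
      intro s
      have h2 := hI' s _ (h.rat b)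
      have h3 : eval (x + s • v') (lsub lam D) = δ.eval s := by
        have h4 := hpe s (Polynomial.C D)
        rw [pev_C] at h4
        rw [h4, hδ, eval_lnB, eval_lsub, map_add, map_smul]
      have h3' : eval (x + s • v) (lsub lam D) = δ.eval s := by
        rw [hδ, eval_lnB, eval_lsub, map_add, map_smul]
      rw [map_sub, map_mul, eval_X, h3, hpe s (g b), sub_eq_zero] at h2
      rw [map_sub, map_mul, eval_X, h3', ← h2]
      simp only [Polynomial.eval_mul, Polynomial.eval_C, Polynomial.eval_X, Pi.add_apply,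
        Pi.smul_apply, smul_eq_mul]
      ring
    have h2 := dot_of_eq _ h1
    rw [hT _ (h.rat b)] at h2
    have h3 : (Polynomial.derivative (δ * (Polynomial.C (v b - v' b) * Polynomial.X))).eval 0 =
        δ.eval 0 * (v b - v' b) := by
      simp
    rw [h3] at h2
    have h4 : δ.eval 0 ≠ 0 := by
      rw [hδ, eval_lnB, zero_smul, add_zero]
      exact hD
    rcases mul_eq_zero.mp h2.symm with h5 | h5
    · exact absurd h5 h4
    · exact (sub_eq_zero.mp h5).symm
  rw [← hvv]
  exact hI'

end Lift

end Pool.Agent.Hartshorne
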