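import Mathlib
import Pool.Agent.HartD.Lift
import Pool.Agent.HartN.FinalT

/-!
The dimension of the union of the lines through a general point, from the degree.
-/

namespace Pool.Agent.Hartshorne

open MvPolynomial

set_option linter.unusedSectionVars false

section Dim

variable {ρ : Type} [Fintype ρ] [DecidableEq ρ]

/-- Krull's theorem at the origin. -/
lemma dim_of_eqs {κ : Type*} [Fintype κ] (E : κ → MvPolynomial ρ ℂ) (h0 : ∀ k, eval 0 (E k) = 0) :
    ((Fintype.card ρ : ℕ) : WithBot ℕ∞) ≤
      ringKrullDim (MvPolynomial ρ ℂ ⧸ Ideal.span (Set.range E)) +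
        ((Fintype.card κ : ℕ) : WithBot ℕ∞) := by
  have hsub : Set.range E ⊆ vanishingIdeal ℂ {(0 : ρ → ℂ)} := by
    rintro _ ⟨k, rfl⟩
    rw [SetLike.mem_coe, mem_vanishingIdeal_singleton_iff, aeval_eq_eval]
    exact h0 k
  have hht := Ideal.height_le_ringKrullDim_quotient_add_encard (Set.range E) hsub
  have hcardR : (Set.range E).encard ≤ ((Fintype.card κ : ℕ) : ℕ∞) := by
    rw [← Set.image_univ]
    refine (Set.encard_image_le _ _).trans ?_
    rw [Set.encard_univ, ENat.card_eq_coe_fintype_card]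
  have h1 : ((Fintype.card ρ : ℕ) : WithBot ℕ∞) ≤
      (((vanishingIdeal ℂ {(0 : ρ → ℂ)}).height : ℕ∞) : WithBot ℕ∞) := by
    exact_mod_cast card_le_height_origin (ι := ρ)
  refine h1.trans (hht.trans ?_)
  refine add_le_add_right ?_ _
  exact_mod_cast hcardR

lemma coneI_dim {κ : Type*} [Fintype κ] {I : Ideal (MvPolynomial ρ ℂ)} {x : ρ → ℂ}
    (E : κ → MvPolynomial ρ ℂ) (h0 : ∀ k, eval 0 (E k) = 0)
    (hE : ∀ q : ρ → ℂ, (∀ k, eval q (E k) = 0) →
      ∀ s t : ℂ, ∀ h ∈ I, eval (s • x + t • q) h = 0) :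
    ((Fintype.card ρ : ℕ) : WithBot ℕ∞) ≤
      ringKrullDim (MvPolynomial ρ ℂ ⧸ coneI I x) + ((Fintype.card κ : ℕ) : WithBot ℕ∞) := by
  obtain ⟨Q, hQ, hEQ, hQd⟩ := exists_prime_over _ (dim_of_eqs E h0)
  have hle : coneI I x ≤ Q := by
    intro F hF
    refine mem_of_eval_zero hQ (fun q hq => ?_)
    exact mem_coneI.mp hF q (hE q (fun k => hq _ (hEQ (Ideal.subset_span ⟨k, rfl⟩))))
  refine hQd.trans ?_
  gcongr
  exact ringKrullDim_le_of_surjective (Ideal.Quotient.factor hle)
    (Ideal.Quotient.factor_surjective hle)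

/-- Lines of a cone, in homogeneous parameters. -/
lemma line_hom {I : Ideal (MvPolynomial ρ ℂ)} (hhom : HI I) {x v : ρ → ℂ}
    (h : ∀ t : ℂ, ∀ q ∈ I, eval (x + t • v) q = 0) (s t : ℂ) :
    ∀ q ∈ I, eval (s • x + t • v) q = 0 := by
  have h1 : ∀ s : ℂ, s ≠ 0 → ∀ q ∈ I, eval (s • x + t • v) q = 0 := by
    intro s hs
    have h2 := scale_mem hhom (h (t / s)) s
    rwa [smul_add, smul_smul, mul_div_cancel₀ _ hs] at h2
  by_cases hs : s = 0
  · intro q hq
    have h2 : HartA.lineP (t • v) x q = 0 := by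
      refine Polynomial.eq_zero_of_infinite_isRoot _
        ((Set.infinite_of_finite_compl (s := {s : ℂ | s ≠ 0}) ?_).mono (fun s hs => ?_))
      · simp
      · show (HartA.lineP (t • v) x q).eval s = 0
        rw [HartA.eval_lineP, add_comm]
        exact h1 s hs q hq
    have h3 := HartA.eval_lineP (t • v) x 0 q
    rw [h2, Polynomial.eval_zero, zero_smul, add_zero] at h3
    rw [hs, zero_smul, zero_add]
    exact h3.symm
  · exact h1 s hs

/-- Translation. -/
noncomputable def trs (x : ρ → ℂ) : MvPolynomial ρ ℂ →ₐ[ℂ] MvPolynomial ρ ℂ :=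
  aeval (fun b => C (x b) + X b)

lemma eval_trs (x q : ρ → ℂ) (P : MvPolynomial ρ ℂ) : eval q (trs x P) = eval (x + q) P := by
  have h1 : (eval q).comp (trs x).toRingHom = eval (x + q) := by
    apply MvPolynomial.ringHom_ext
    · intro c
      simp [trs]
    · intro j
      simp [trs]
  exact congrArg (fun F : MvPolynomial ρ ℂ →+* ℂ => F P) h1

lemma coeff_lineP (x q : ρ → ℂ) (P : MvPolynomial ρ ℂ) (j : ℕ) :
    (HartA.lineP x q P).coeff j = eval q (homogeneousComponent j (trs x P)) := by
  have h1 : HartA.lineP x q P = ∑ i ∈ Finset.range ((trs x P).totalDegree + 1),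
      Polynomial.monomial i (eval q (homogeneousComponent i (trs x P))) := by
    apply Polynomial.funext
    intro t
    rw [HartA.eval_lineP, ← eval_trs, Polynomial.eval_finsetSum]
    conv_lhs => rw [← sum_homogeneousComponent (trs x P), map_sum]
    refine Finset.sum_congr rfl (fun i _ => ?_)
    rw [eval_smul_of_isHomogeneous (homogeneousComponent_isHomogeneous _ _),
      Polynomial.eval_monomial, mul_comm]
  rw [h1, Polynomial.finsetSum_coeff]
  simp only [Polynomial.coeff_monomial]
  rw [Finset.sum_ite_eq' (Finset.range _) j]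
  split_ifs with hj
  · rfl
  · rw [homogeneousComponent_eq_zero _ _ (by rw [Finset.mem_range] at hj; omega), map_zero]

lemma natDegree_lineP (x q : ρ → ℂ) {P : MvPolynomial ρ ℂ} {d : ℕ} (hP : P.IsHomogeneous d) :
    (HartA.lineP x q P).natDegree ≤ d := by
  have h1 := MvPolynomial.aeval_natDegree_le P hP.totalDegree_le
    (fun b => HartA.lineP x q (X b)) (n := 1) (fun b => by
      have : HartA.lineP x q (X b) = Polynomial.C (q b) * Polynomial.X + Polynomial.C (x b) := by
        simp [HartA.lineP]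
        ring
      rw [this]
      exact Polynomial.natDegree_linear_le)
  rw [mul_one] at h1
  have h2 : aeval (fun b => HartA.lineP x q (X b)) P = HartA.lineP x q P := by
    have h3 : aeval (fun b => HartA.lineP x q (X b)) = HartA.lineP x q := by
      apply MvPolynomial.algHom_ext
      intro b
      rw [aeval_X]
    rw [h3]
  rwa [h2] at h1

variable {n c D' : ℕ} {I : Ideal (MvPolynomial ρ ℂ)}
  {lam : (ρ → ℂ) →ₗ[ℂ] (Fin n → ℂ)} {z : MvPolynomial ρ ℂ}
  {f : Polynomial (MvPolynomial (Fin n) ℂ)} {D : MvPolynomial (Fin n) ℂ}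
  {g : ρ → Polynomial (MvPolynomial (Fin n) ℂ)}

lemma PData.pev_mem (h : PData I lam z f D g) : pev lam z f ∈ I := (h.ker f).mpr dvd_rfl

lemma PData.pev_hom (h : PData I lam z f D g) : (pev lam z f).IsHomogeneous f.natDegree := by
  rw [pev_eq_sum f (Nat.lt_succ_self _)]
  refine IsHomogeneous.sum _ _ _ (fun i hi => ?_)
  rw [Finset.mem_range, Nat.lt_succ_iff] at hi
  have h1 := (isHomogeneous_lsub lam _ _ (h.hom i hi)).mul (h.hz.pow i)
  rwa [one_mul, Nat.sub_add_cancel hi] at h1

/-- The lines through a general point. -/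
theorem PData.cone_dim (h : PData I lam z f D g) (hS : NsCone I c D') {x : ρ → ℂ} (hx0 : x ≠ 0)
    (hx : ∀ q ∈ I, eval x q = 0) (hD : eval (lam x) D ≠ 0) :
    ((Fintype.card ρ : ℕ) : WithBot ℕ∞) ≤
      ringKrullDim (MvPolynomial ρ ℂ ⧸ coneI I x) + ((c + (f.natDegree - 1) : ℕ) : WithBot ℕ∞) := by
  classical
  obtain ⟨⟨w, hw, hwli⟩, hfr⟩ := hS.good x hx0 hx
  have hspan : ∀ q ∈ I, grad x q ∈ Submodule.span ℂ (Set.range fun k => grad x (w k)) := by
    intro q hq
    have h1 : Submodule.span ℂ (Set.range fun k => grad x (w k)) = gradSpan I x := by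
      apply Submodule.eq_of_le_of_finrank_eq
      · rw [Submodule.span_le]
        rintro _ ⟨k, rfl⟩
        exact grad_mem_gradSpan (hw k).1 x
      · rw [hfr, finrank_span_eq_card hwli, Fintype.card_fin]
    rw [h1]
    exact grad_mem_gradSpan hq x
  set P := pev lam z f with hP
  let E : Fin c ⊕ Fin (f.natDegree - 1) → MvPolynomial ρ ℂ := Sum.elim
    (fun k => ∑ b, C (grad x (w k) b) * X b)
    (fun j => homogeneousComponent (j.1 + 2) (trs x P))
  have hcard : Fintype.card (Fin c ⊕ Fin (f.natDegree - 1)) = c + (f.natDegree - 1) := by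
    rw [Fintype.card_sum, Fintype.card_fin, Fintype.card_fin]
  have h1 := coneI_dim (I := I) (x := x) E (by
    rintro (k | j)
    · show eval 0 (∑ b, C (grad x (w k) b) * X b) = 0
      rw [map_sum]
      exact Finset.sum_eq_zero (fun b _ => by rw [map_mul, eval_X, Pi.zero_apply, mul_zero])
    · show eval 0 (homogeneousComponent (j.1 + 2) (trs x P)) = 0
      have h2 := eval_smul_of_isHomogeneous (homogeneousComponent_isHomogeneous (j.1 + 2)
        (trs x P)) 0 0
      rw [zero_smul, zero_pow (by omega), zero_mul] at h2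
      exact h2) (by
    intro q hq
    have hT : ∀ p ∈ I, grad x p ⬝ᵥ q = 0 := by
      intro p hp
      obtain ⟨μ, hμ⟩ := (Submodule.mem_span_range_iff_exists_fun _).mp (hspan p hp)
      rw [← hμ, sum_dotProduct]
      refine Finset.sum_eq_zero (fun k _ => ?_)
      rw [smul_dotProduct]
      have h2 : eval q (∑ b, C (grad x (w k) b) * X b) = 0 := hq (Sum.inl k)
      rw [map_sum] at h2
      have h3 : grad x (w k) ⬝ᵥ q = 0 := by
        rw [dotProduct, ← h2]
        exact Finset.sum_congr rfl (fun b _ => by rw [map_mul, eval_C, eval_X])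
      rw [h3, smul_zero]
    have hzero : HartA.lineP x q P = 0 := by
      ext j
      rw [Polynomial.coeff_zero]
      rcases Nat.lt_or_ge f.natDegree j with hj | hj
      · exact Polynomial.coeff_eq_zero_of_natDegree_lt
          (lt_of_le_of_lt (natDegree_lineP x q h.pev_hom) hj)
      · rcases j with _ | _ | j
        · have h2 := HartA.eval_lineP x q 0 P
          rw [zero_smul, add_zero, hx _ h.pev_mem, ← Polynomial.coeff_zero_eq_eval_zero] at h2
          exact h2
        · have h2 := dot_of_eq (y := x) (v := q) (f := P) (HartA.lineP x q P)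
            (fun s => (HartA.eval_lineP x q s P).symm)
          rw [hT _ h.pev_mem, ← Polynomial.coeff_zero_eq_eval_zero,
            Polynomial.coeff_derivative] at h2
          simpa using h2.symm
        · rw [coeff_lineP]
          exact hq (Sum.inr ⟨j, by omega⟩)
    refine line_hom hS.hhom (h.lift hS.hI hx hD hT (fun t => ?_))
    rw [← hP, ← HartA.eval_lineP, hzero, Polynomial.eval_zero])
  rw [hcard] at h1
  exact h1

end Dim

end Pool.Agent.Hartshorne
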