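import Mathlib
import Pool.Agent.HartD.Data

/-!
The degree of the hypersurface is at most the degree of the variety.
-/

namespace Pool.Agent.Hartshorne

open MvPolynomial

set_option linter.unusedSectionVars false

section Hilb

variable {ρ : Type*} [Fintype ρ] [DecidableEq ρ] {n : ℕ} {I : Ideal (MvPolynomial ρ ℂ)}
  {lam : (ρ → ℂ) →ₗ[ℂ] (Fin n → ℂ)} {z : MvPolynomial ρ ℂ}
  {f : Polynomial (MvPolynomial (Fin n) ℂ)} {D : MvPolynomial (Fin n) ℂ}
  {g : ρ → Polynomial (MvPolynomial (Fin n) ℂ)}

/-- The graded pieces of the coordinate ring. -/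
noncomputable def grP (I : Ideal (MvPolynomial ρ ℂ)) (k : ℕ) : Submodule ℂ (MvPolynomial ρ ℂ ⧸ I) :=
  (homogeneousSubmodule ρ ℂ k).map (Ideal.Quotient.mkₐ ℂ I).toLinearMap

instance (I : Ideal (MvPolynomial ρ ℂ)) (k : ℕ) : FiniteDimensional ℂ (grP I k) := by
  have h1 : (grP I k).FG := (homogeneousSubmodule_fg ρ ℂ k).map _
  exact Module.Finite.iff_fg.mpr h1

lemma mem_grP {k : ℕ} {p : MvPolynomial ρ ℂ} (hp : p.IsHomogeneous k) :
    Ideal.Quotient.mk I p ∈ grP I k := ⟨p, hp, rfl⟩

/-- Lower bound of the Hilbert function. -/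
theorem PData.hilb (h : PData I lam z f D g) (i₀ : Fin n) (m : ℕ) :
    f.natDegree * ((n + m - 1).choose m) ≤ Module.finrank ℂ (grP I (m + (f.natDegree - 1))) := by
  classical
  set d := f.natDegree with hd
  set J := Fin d × ((Finset.univ : Finset (Fin n)).finsuppAntidiag m) with hJ
  have hJc : Fintype.card J = d * ((n + m - 1).choose m) := by
    show Fintype.card (Fin d × ((Finset.univ : Finset (Fin n)).finsuppAntidiag m)) = _
    rw [Fintype.card_prod, Fintype.card_fin, Fintype.card_coe,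
      Finset.card_finsuppAntidiag_nat_eq_choose, Finset.card_univ, Fintype.card_fin]
  have hmon : ∀ s : ((Finset.univ : Finset (Fin n)).finsuppAntidiag m),
      (monomial s.1 (1 : ℂ)).IsHomogeneous m := by
    intro s
    apply isHomogeneous_monomial
    have h1 := s.2
    rw [Finset.mem_finsuppAntidiag] at h1
    rw [Finsupp.degree_eq_sum]
    exact h1.1
  have hmem : ∀ j : J, (lsub lam (X i₀ ^ (d - 1 - j.1.1) * monomial j.2.1 (1 : ℂ)) *
      z ^ j.1.1).IsHomogeneous (m + (d - 1)) := by
    intro j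
    have h1 := (isHomogeneous_lsub lam _ _ (((isHomogeneous_X ℂ i₀).pow (d - 1 - j.1.1)).mul
      (hmon j.2))).mul (h.hz.pow j.1.1)
    have h2 : 1 * (d - 1 - j.1.1) + m + 1 * j.1.1 = m + (d - 1) := by
      have := j.1.2
      omega
    rwa [h2] at h1
  let F : J → grP I (m + (d - 1)) := fun j =>
    ⟨Ideal.Quotient.mk I (lsub lam (X i₀ ^ (d - 1 - j.1.1) * monomial j.2.1 (1 : ℂ)) * z ^ j.1.1),
      mem_grP (hmem j)⟩
  have hli : LinearIndependent ℂ F := by
    rw [Fintype.linearIndependent_iff]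
    intro a ha j₀
    have h1 := congrArg Subtype.val ha
    rw [Submodule.coe_sum, Submodule.coe_zero] at h1
    set q : Fin d → MvPolynomial (Fin n) ℂ := fun i =>
      ∑ s : ((Finset.univ : Finset (Fin n)).finsuppAntidiag m), C (a (i, s)) * monomial s.1 1 with hq
    set H : Polynomial (MvPolynomial (Fin n) ℂ) :=
      ∑ i : Fin d, Polynomial.monomial i.1 (X i₀ ^ (d - 1 - i.1) * q i) with hH
    have h2 : pev lam z H ∈ I := by
      rw [← Ideal.Quotient.eq_zero_iff_mem, ← h1, hH, map_sum, map_sum, Fintype.sum_prod_type]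
      refine Finset.sum_congr rfl (fun i _ => ?_)
      rw [← Polynomial.C_mul_X_pow_eq_monomial, map_mul, map_pow, pev_C, pev_X, hq]
      simp only [Finset.mul_sum, map_sum, map_mul, Finset.sum_mul]
      refine Finset.sum_congr rfl (fun s _ => ?_)
      have h3 : lsub lam (C (a (i, s)) : MvPolynomial (Fin n) ℂ) = C (a (i, s)) :=
        (lsub lam).commutes _
      rw [h3]
      have h4 : ∀ w : MvPolynomial ρ ℂ, a (i, s) • Ideal.Quotient.mk I w =
          Ideal.Quotient.mk I (C (a (i, s)) * w) := by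
        intro w
        rw [← smul_eq_C_mul]
        rfl
      show _ = a (i, s) • Ideal.Quotient.mk I
        (lsub lam (X i₀ ^ (d - 1 - i.1) * monomial s.1 (1 : ℂ)) * z ^ i.1)
      rw [h4, ← map_mul, ← map_mul, ← map_mul]
      congr 1
      rw [map_mul (lsub lam)]
      ring
    have h3 := (h.ker H).mp h2
    have h4 : H = 0 := by
      by_contra hne
      have h5 := Polynomial.natDegree_le_of_dvd h3 hne
      have h6 : H.natDegree ≤ d - 1 := by
        rw [hH]
        refine Polynomial.natDegree_sum_le_of_forall_le _ _ (fun i _ => ?_)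
        refine (Polynomial.natDegree_monomial_le _).trans ?_
        have := i.2
        omega
      have h7 := j₀.1.2
      omega
    have h5 : H.coeff j₀.1.1 = X i₀ ^ (d - 1 - j₀.1.1) * q j₀.1 := by
      rw [hH, Polynomial.finsetSum_coeff, Finset.sum_eq_single j₀.1]
      · rw [Polynomial.coeff_monomial_same]
      · intro i _ hi
        rw [Polynomial.coeff_monomial, if_neg (fun h => hi (Fin.ext h))]
      · intro h; exact absurd (Finset.mem_univ _) h
    rw [h4, Polynomial.coeff_zero] at h5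
    have h6 : q j₀.1 = 0 := by
      rcases mul_eq_zero.mp h5.symm with h6 | h6
      · exact absurd h6 (pow_ne_zero _ (X_ne_zero _))
      · exact h6
    have h7 := congrArg (coeff j₀.2.1) h6
    rw [hq, coeff_zero] at h7
    simp only [coeff_sum, coeff_C_mul, coeff_monomial] at h7
    rw [Finset.sum_eq_single j₀.2] at h7
    · simpa using h7
    · intro s _ hs
      rw [if_neg (fun h => hs (Subtype.ext h)), mul_zero]
    · intro h; exact absurd (Finset.mem_univ _) h
  rw [← hJc]
  exact hli.fintype_card_le_finrank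

/-- The degree of the hypersurface is at most the degree of the variety. -/
theorem PData.natDegree_le {n : ℕ} {lam : (ρ → ℂ) →ₗ[ℂ] (Fin (n + 1) → ℂ)}
    {f : Polynomial (MvPolynomial (Fin (n + 1)) ℂ)} {D : MvPolynomial (Fin (n + 1)) ℂ}
    {g : ρ → Polynomial (MvPolynomial (Fin (n + 1)) ℂ)}
    (h : PData I lam z f D g) {δ : ℕ}
    (hdeg : Filter.Tendsto (fun k : ℕ => (Module.finrank ℂ (grP I k) : ℝ) / (k : ℝ) ^ n)
      Filter.atTop (nhds ((δ : ℝ) / n.factorial))) : f.natDegree ≤ δ := by
  set d := f.natDegree with hd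
  have hfact : (0 : ℝ) < n.factorial := by exact_mod_cast Nat.factorial_pos n
  have h1 : ∀ m : ℕ, (d : ℝ) * (((m : ℝ) + 1) ^ n / n.factorial) ≤
      Module.finrank ℂ (grP I (m + (d - 1))) := by
    intro m
    have h2 := h.hilb 0 m
    rw [← hd] at h2
    have h3 : n + 1 + m - 1 = n + m := by omega
    have h4 : (n + m).choose m = (n + m).choose n := by
      rw [← Nat.choose_symm_add]
    rw [h3, h4] at h2
    have h5 := Nat.pow_le_choose (α := ℝ) n (n + m)
    have h6 : n + m + 1 - n = m + 1 := by omega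
    rw [h6] at h5
    push_cast at h5
    have h7 : (d : ℝ) * ((n + m).choose n : ℝ) ≤ Module.finrank ℂ (grP I (m + (d - 1))) := by
      exact_mod_cast h2
    refine le_trans ?_ h7
    gcongr
  have h2 : Filter.Tendsto (fun m : ℕ => (Module.finrank ℂ (grP I (m + (d - 1))) : ℝ) /
      ((m + (d - 1) : ℕ) : ℝ) ^ n) Filter.atTop (nhds ((δ : ℝ) / n.factorial)) :=
    hdeg.comp (Filter.tendsto_add_atTop_nat (d - 1))
  have h3 : Filter.Tendsto (fun m : ℕ => (d : ℝ) / n.factorial *
      (((m : ℝ) + 1) / ((m + (d - 1) : ℕ) : ℝ)) ^ n) Filter.atTop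
      (nhds ((d : ℝ) / n.factorial * 1 ^ n)) := by
    refine Filter.Tendsto.const_mul _ (Filter.Tendsto.pow ?_ _)
    have h4 : Filter.Tendsto (fun m : ℕ => 1 + ((1 : ℝ) - ((d - 1 : ℕ) : ℝ)) /
        (((m + (d - 1) : ℕ)) : ℝ)) Filter.atTop (nhds (1 + 0)) := by
      refine Filter.Tendsto.const_add _ ?_
      have h5 : Filter.Tendsto (fun k : ℕ => ((1 : ℝ) - ((d - 1 : ℕ) : ℝ)) / (k : ℝ))
          Filter.atTop (nhds 0) := tendsto_const_div_atTop_nhds_zero_nat _
      exact h5.comp (Filter.tendsto_add_atTop_nat (d - 1))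
    rw [add_zero] at h4
    refine h4.congr' ?_
    filter_upwards [Filter.eventually_gt_atTop 0] with m hm
    have h5 : ((m + (d - 1) : ℕ) : ℝ) ≠ 0 := by
      have : 0 < m + (d - 1) := by omega
      exact_mod_cast this.ne'
    rw [eq_div_iff h5, add_mul, div_mul_cancel₀ _ h5]
    push_cast
    ring
  rw [one_pow, mul_one] at h3
  have h4 : (d : ℝ) / n.factorial ≤ (δ : ℝ) / n.factorial := by
    refine le_of_tendsto_of_tendsto h3 h2 ?_
    filter_upwards with m
    rw [div_pow, ← mul_div_assoc]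
    refine div_le_div_of_nonneg_right ?_ (by positivity)
    refine le_trans (le_of_eq ?_) (h1 m)
    ring
  have h5 : (d : ℝ) ≤ (δ : ℝ) := by
    rwa [div_le_div_iff_of_pos_right hfact] at h4
  exact_mod_cast h5

end Hilb

end Pool.Agent.Hartshorne
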