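import Mathlib
import Pool.Agent.HartD.Dim
import Pool.Agent.HartD.Hilb
import Pool.Agent.HartN.ConstL

/-!
Hartshorne's conjecture for varieties of small degree.
-/

namespace Pool.Agent.Hartshorne

open MvPolynomial

set_option linter.unusedSectionVars false

section FinalD

variable {ρ : Type} [Fintype ρ] [DecidableEq ρ]

/-- **Hartshorne's conjecture for varieties covered by many lines**, without nondegeneracy. -/
theorem core_linesD {c : ℕ} (r : ℕ) (hc : 0 < c) (hN : 2 * c + 3 * r + 1 < Fintype.card ρ)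
    (I : Ideal (MvPolynomial ρ ℂ)) (hI : I.IsPrime) (hhom : HI I)
    (hdim : ((Fintype.card ρ : ℕ) : WithBot ℕ∞) ≤
      ringKrullDim (MvPolynomial ρ ℂ ⧸ I) + (c : WithBot ℕ∞))
    (hsm : ∀ p : ρ → ℂ, p ≠ 0 → (∀ h ∈ I, eval p h = 0) →
      ∃ q : Fin c → MvPolynomial ρ ℂ, (∀ k, q k ∈ I) ∧
        LinearIndependent ℂ (fun k => fun j => eval p (pderiv j (q k))))
    (hlines : ∀ g ∉ I, ∃ x, (∀ h ∈ I, eval x h = 0) ∧ eval x g ≠ 0 ∧
      ((Fintype.card ρ : ℕ) : WithBot ℕ∞) ≤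
        ringKrullDim (MvPolynomial ρ ℂ ⧸ coneI I x) + ((c + r : ℕ) : WithBot ℕ∞)) :
    ∃ (G : Fin c → MvPolynomial ρ ℂ) (e : Fin c → ℕ),
      (∀ k, (G k).IsHomogeneous (e k + 1)) ∧ ∑ k, e k ≤ r ∧
      Ideal.span (Set.range G) = I := by
  classical
  have hne : ∃ p : ρ → ℂ, p ≠ 0 ∧ ∀ h ∈ I, eval p h = 0 := by
    obtain ⟨p, -, hp0, hp⟩ := exists_zero (⊤ : Submodule ℂ (ρ → ℂ)) I hhom hdim (by
      rw [finrank_top, Module.finrank_fintype_fun_eq_card]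
      omega)
    exact ⟨p, hp0, hp⟩
  obtain ⟨n, x, u, d, D, F, hP, hx⟩ := exists_ptS I hI hhom hdim hsm hne _ hlines
  have hcard := hP.hn
  obtain ⟨K', hK', hK'a, hK'd⟩ := hP.exists_prime_dir r hx
  obtain ⟨K, m, hm, hK, hex⟩ := hP.exists_comp K' hK' hK'a (c + r) hK'd (by omega)
  obtain ⟨v₁, hv₁0, hv₁⟩ := hex
  have hcon : ∀ v₁ ≠ 0, (∀ g ∈ K, eval v₁ g = 0) → ∀ v₂ ≠ 0, (∀ g ∈ K, eval v₂ g = 0) → ∀ e,
      Wsp (El I x u v₁) e = Wsp (El I x u v₂) e :=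
    fun v₁ hv₁0 hv₁ v₂ hv₂0 hv₂ e => hK.Wsp_constL (by omega) hv₁0 hv₁ hv₂0 hv₂ e
  obtain ⟨F', f, hfm, hC, v₀, hv₀0, hv₀K, hv₀⟩ := hK.coneS hcon (by omega) ⟨v₁, hv₁0, hv₁⟩
  obtain ⟨G, hG, hGI⟩ := hC.main' hc (by omega) ⟨v₀, hv₀0, hv₀⟩
  refine ⟨G, f, hG, ?_, hGI⟩
  have h1 : ∑ i, (f i + 1) = ∑ i, f i + c := by
    rw [Finset.sum_add_distrib]
    simp
  omega

/-- **Hartshorne's conjecture for varieties of small degree.** -/
theorem core_degree {c n : ℕ} (δ : ℕ) (hc : 0 < c)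
    (hN : 2 * c + 3 * (δ - 1) + 1 < Fintype.card ρ) (hcn : n + 1 + c = Fintype.card ρ)
    (I : Ideal (MvPolynomial ρ ℂ)) (hI : I.IsPrime) (hhom : HI I)
    (hdim : ringKrullDim (MvPolynomial ρ ℂ ⧸ I) = ((n + 1 : ℕ) : WithBot ℕ∞))
    (hdeg : Filter.Tendsto (fun k : ℕ => (Module.finrank ℂ (grP I k) : ℝ) / (k : ℝ) ^ n)
      Filter.atTop (nhds ((δ : ℝ) / n.factorial)))
    (hsm : ∀ p : ρ → ℂ, p ≠ 0 → (∀ h ∈ I, eval p h = 0) →
      ∃ q : Fin c → MvPolynomial ρ ℂ, (∀ k, q k ∈ I) ∧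
        LinearIndependent ℂ (fun k => fun j => eval p (pderiv j (q k)))) :
    ∃ (G : Fin c → MvPolynomial ρ ℂ) (e : Fin c → ℕ),
      (∀ k, (G k).IsHomogeneous (e k + 1)) ∧ ∑ k, e k ≤ δ - 1 ∧
      Ideal.span (Set.range G) = I := by
  have hdim' : ((Fintype.card ρ : ℕ) : WithBot ℕ∞) ≤
      ringKrullDim (MvPolynomial ρ ℂ ⧸ I) + (c : WithBot ℕ∞) := by
    rw [hdim, ← hcn]
    exact_mod_cast le_rfl
  obtain ⟨D', hS⟩ := exists_nsCone I hI hhom hdim' hsm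
  obtain ⟨lam, z, f, D, g, hP⟩ := exists_pdata I hI hhom hdim (by omega)
  have hfd : f.natDegree ≤ δ := hP.natDegree_le hdeg
  have hD0 : lsub lam D ∉ I := by
    intro hmem
    have h1 := (hP.ker (Polynomial.C D)).mp (by rw [pev_C]; exact hmem)
    have h2 : f.natDegree = 0 := by
      have h3 := Polynomial.natDegree_le_of_dvd h1 (Polynomial.C_ne_zero.mpr hP.D0)
      rw [Polynomial.natDegree_C] at h3
      omega
    have h3 : f = 1 := Polynomial.eq_one_of_monic_natDegree_zero hP.monic h2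
    have h4 := hP.pev_mem
    rw [h3, map_one] at h4
    exact hI.ne_top ((Ideal.eq_top_iff_one I).mpr h4)
  -- the point 0 is excluded by a linear form
  obtain ⟨b₀, hb₀⟩ : ∃ b : ρ, (X b : MvPolynomial ρ ℂ) ∉ I := by
    by_contra hcon
    push Not at hcon
    obtain ⟨p, -, hp0, hp⟩ := exists_zero (⊤ : Submodule ℂ (ρ → ℂ)) I hhom hdim' (by
      rw [finrank_top, Module.finrank_fintype_fun_eq_card]
      omega)
    apply hp0
    funext b
    have h1 := hp _ (hcon b)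
    rwa [eval_X] at h1
  refine core_linesD (δ - 1) hc hN I hI hhom hdim' hsm (fun q hq => ?_)
  have hprod : q * (lsub lam D * X b₀) ∉ I := by
    intro h
    rcases hI.mem_or_mem h with h | h
    · exact hq h
    · rcases hI.mem_or_mem h with h | h
      · exact hD0 h
      · exact hb₀ h
  obtain ⟨x, hx, hxe⟩ : ∃ x, (∀ h ∈ I, eval x h = 0) ∧ eval x (q * (lsub lam D * X b₀)) ≠ 0 := by
    by_contra hcon
    push Not at hcon
    exact hprod (mem_of_eval_zero hI (fun x hx => hcon x hx))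
  rw [map_mul, map_mul, eval_X, eval_lsub] at hxe
  have hx1 := left_ne_zero_of_mul hxe
  have hx2 := left_ne_zero_of_mul (right_ne_zero_of_mul hxe)
  have hx3 := right_ne_zero_of_mul (right_ne_zero_of_mul hxe)
  have hx0 : x ≠ 0 := by
    rintro rfl
    exact hx3 rfl
  refine ⟨x, hx, hx1, (hP.cone_dim hS hx0 hx hx2).trans ?_⟩
  gcongr

end FinalD

end Pool.Agent.Hartshorne
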