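import Mathlib
import Pool.Agent.HartD.FinalD

namespace Pool.Agent.HartD.SmallDegreeOld

open MvPolynomial

/-- Let `X ⊆ ℙ^N` be a nonsingular irreducible variety of dimension `n < N`, of codimension
`c = N - n` and degree `δ`, with homogeneous prime ideal `I` (the degree is defined by the growth
of the Hilbert function: the dimension of the degree `k` part of the coordinate ring is
asymptotically `δ k ^ n / n!`). If `N > 2 c + 3 (δ - 1)`, then `X` is a complete intersection: `I`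
is generated by `c` forms, of degrees `e i + 1` with `∑ e i ≤ δ - 1`. -/
theorem small_degree (N n δ : ℕ) (hn : n < N) (hN : 2 * (N - n) + 3 * (δ - 1) < N)
    (I : Ideal (MvPolynomial (Fin (N + 1)) ℂ))
    (hom : ∀ h ∈ I, ∀ e : ℕ, homogeneousComponent e h ∈ I)
    (hI : I.IsPrime)
    (hdim : ringKrullDim (MvPolynomial (Fin (N + 1)) ℂ ⧸ I) = ((n + 1 : ℕ) : WithBot ℕ∞))
    (hdeg : Filter.Tendsto
      (fun k : ℕ => (Module.finrank ℂ ((homogeneousSubmodule (Fin (N + 1)) ℂ k).map
        (Ideal.Quotient.mkₐ ℂ I).toLinearMap) : ℝ) / (k : ℝ) ^ n)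
      Filter.atTop (nhds ((δ : ℝ) / n.factorial)))
    (hsm : ∀ p : Fin (N + 1) → ℂ, p ≠ 0 → (∀ h ∈ I, eval p h = 0) →
      ∃ q : Fin (N - n) → MvPolynomial (Fin (N + 1)) ℂ, (∀ k, q k ∈ I) ∧
        LinearIndependent ℂ (fun k => fun j => eval p (pderiv j (q k)))) :
    ∃ (f : Fin (N - n) → MvPolynomial (Fin (N + 1)) ℂ) (e : Fin (N - n) → ℕ),
      (∀ i, (f i).IsHomogeneous (e i + 1)) ∧ ∑ i, e i ≤ δ - 1 ∧
      Ideal.span (Set.range f) = I := by
  refine Pool.Agent.Hartshorne.core_degree (n := n) δ (by omega) ?_ ?_ I hI hom hdim hdeg hsm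
  · rw [Fintype.card_fin]
    omega
  · rw [Fintype.card_fin]
    omega

end Pool.Agent.HartD.SmallDegreeOld
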